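import Pool.Agent.H41.HYP.S1

/-!
# HYP, row SPC: isotropic subspaces of congruent and of proportional matrices
-/

set_option autoImplicit false

namespace Pool.HYP

open Polynomial Matrix Pool.AVS

private lemma spc_form {L : Type} [Field L] {n : ℕ} (G a : Matrix (Fin n) (Fin n) L)
    (x y : Fin n → L) : x ⬝ᵥ ((aᵀ * G * a) *ᵥ y) = (a *ᵥ x) ⬝ᵥ (G *ᵥ (a *ᵥ y)) := by
  rw [← Matrix.mulVec_mulVec, ← Matrix.mulVec_mulVec, Matrix.dotProduct_mulVec,
    Matrix.vecMul_transpose]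

private lemma spc_one {L : Type} [Field L] {g n : ℕ} {G a : Matrix (Fin n) (Fin n) L}
    (ha : a.det ≠ 0) (h : SplM g (aᵀ * G * a)) : SplM g G := by
  obtain ⟨e, h1, h2⟩ := h
  refine ⟨fun i => a *ᵥ e i, ?_, fun i j => ?_⟩
  · have hinj : Function.Injective a.mulVecLin := by
      intro x y hxy
      have h3 : a *ᵥ x = a *ᵥ y := by simpa using hxy
      have h4 := congrArg (fun z => a⁻¹ *ᵥ z) h3
      simpa [Matrix.mulVec_mulVec, Matrix.nonsing_inv_mul a (isUnit_iff_ne_zero.2 ha)] using h4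
    exact h1.map' a.mulVecLin (LinearMap.ker_eq_bot.2 hinj)
  · rw [← spc_form]
    exact h2 i j

theorem spc : SPCStmt := by
  intro L _ g n G a c ha hc
  refine ⟨⟨spc_one ha, fun h => ?_⟩, ⟨fun h => ?_, fun h => ?_⟩⟩
  · have hu : IsUnit a.det := isUnit_iff_ne_zero.2 ha
    refine spc_one (a := a⁻¹) (G := aᵀ * G * a) ?_ ?_
    · intro h0
      have h1 := congrArg Matrix.det (Matrix.nonsing_inv_mul a hu)
      rw [Matrix.det_mul, h0, zero_mul, Matrix.det_one] at h1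
      exact zero_ne_one h1
    · have h3 : (a⁻¹)ᵀ * (aᵀ * G * a) * a⁻¹ = G := by
        have h4 : (a⁻¹)ᵀ * aᵀ = 1 := by
          rw [← Matrix.transpose_mul, Matrix.mul_nonsing_inv a hu, Matrix.transpose_one]
        calc (a⁻¹)ᵀ * (aᵀ * G * a) * a⁻¹ = ((a⁻¹)ᵀ * aᵀ) * G * (a * a⁻¹) := by
              simp only [Matrix.mul_assoc]
          _ = G := by rw [h4, Matrix.mul_nonsing_inv a hu, Matrix.one_mul, Matrix.mul_one]
      rw [h3]
      exact h
  · obtain ⟨e, h1, h2⟩ := h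
    refine ⟨e, h1, fun i j => ?_⟩
    have h3 := h2 i j
    rw [Matrix.smul_mulVec, dotProduct_smul, smul_eq_mul] at h3
    exact (mul_eq_zero.1 h3).resolve_left hc
  · obtain ⟨e, h1, h2⟩ := h
    refine ⟨e, h1, fun i j => ?_⟩
    rw [Matrix.smul_mulVec, dotProduct_smul, h2 i j, smul_zero]

end Pool.HYP
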