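import Pool.Agent.H41.HYP.S1
import Pool.Agent.H69.HYP.SPL

/-!
# HYP, row SQI: change of the representative of a class
-/

set_option autoImplicit false

namespace Pool.HYP

open Polynomial Matrix Pool.AVS

private lemma sqi_gr {K : Type} [Field K] (k n : ℕ) (f h : K[X]) :
    gr k n f h = gr 0 n f (X ^ k * h) := by
  ext i j
  simp only [gr, of_apply]
  congr 1
  ring

private lemma sqi_key {K : Type} [Field K] {n : ℕ} {f : K[X]} (hf : f.Monic)
    (hn : f.natDegree = n) (h0 : 0 < n) (h h' s : K[X]) (hd : f ∣ h' - h * s ^ 2) (k : ℕ) :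
    gr k n f h' = (Matrix.of fun i j : Fin n => vec n f (s * X ^ (j : ℕ)) i)ᵀ * gr k n f h *
      (Matrix.of fun i j : Fin n => vec n f (s * X ^ (j : ℕ)) i) := by
  ext i j
  have h1 : ((Matrix.of fun i j : Fin n => vec n f (s * X ^ (j : ℕ)) i)ᵀ * gr k n f h *
      (Matrix.of fun i j : Fin n => vec n f (s * X ^ (j : ℕ)) i)) i j =
      vec n f (s * X ^ (i : ℕ)) ⬝ᵥ (gr k n f h *ᵥ vec n f (s * X ^ (j : ℕ))) := by
    rw [Matrix.mul_assoc, Matrix.mul_apply]
    rfl
  rw [h1, sqi_gr k n f h, tau_vec hf hn h0]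
  show tau f (X ^ ((i : ℕ) + (j : ℕ) + k) * h') = _
  refine tau_eq_of_dvd hf ?_
  obtain ⟨c, hc⟩ := hd
  exact ⟨X ^ ((i : ℕ) + (j : ℕ) + k) * c, by
    linear_combination X ^ ((i : ℕ) + (j : ℕ) + k) * hc⟩

theorem sqi : SQIStmt := by
  intro K _ n f h h' s hf hn hs hd
  rcases Nat.eq_zero_or_pos n with h0 | h0
  · subst h0
    exact ⟨1, by simp, Subsingleton.elim _ _, Subsingleton.elim _ _⟩
  refine ⟨Matrix.of fun i j : Fin n => vec n f (s * X ^ (j : ℕ)) i, ?_,
    sqi_key hf hn h0 h h' s hd 0, sqi_key hf hn h0 h h' s hd 1⟩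
  intro hdet
  obtain ⟨v, hv0, hv⟩ := Matrix.exists_mulVec_eq_zero_iff.2 hdet
  obtain ⟨p, hp⟩ : ∃ p : K[X], p = ∑ j : Fin n, C (v j) * X ^ (j : ℕ) := ⟨_, rfl⟩
  have hmod : (s * p) %ₘ f = 0 := by
    rw [← vec_sum hf hn h0]
    have h1 : vec n f (s * p) = 0 := by
      rw [← hv]
      funext i
      have h2 : s * p = ∑ j : Fin n, v j • (s * X ^ (j : ℕ)) := by
        rw [hp, Finset.mul_sum]
        refine Finset.sum_congr rfl fun j _ => ?_
        rw [smul_eq_C_mul]
        ring
      show ((s * p) %ₘ f).coeff i = _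
      rw [h2]
      have h3 : (∑ j : Fin n, v j • (s * X ^ (j : ℕ))) %ₘ f =
          ∑ j : Fin n, v j • ((s * X ^ (j : ℕ)) %ₘ f) := by
        have := map_sum (modByMonicHom f) (fun j : Fin n => v j • (s * X ^ (j : ℕ))) Finset.univ
        simpa only [modByMonicHom_apply, smul_modByMonic] using this
      rw [h3, finset_sum_coeff]
      simp only [mulVec, dotProduct, of_apply, vec, coeff_smul, smul_eq_mul]
      exact Finset.sum_congr rfl fun j _ => mul_comm _ _
    rw [h1]
    simp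
  have hdiv : f ∣ p := (hs.symm).dvd_of_dvd_mul_left ((modByMonic_eq_zero_iff_dvd hf).1 hmod)
  have hdeg : p.degree < f.degree := by
    rw [degree_eq_natDegree hf.ne_zero, hn, hp]
    refine (degree_sum_le _ _).trans_lt ?_
    rw [Finset.sup_lt_iff (by simpa using WithBot.bot_lt_coe n)]
    intro j _
    exact (degree_C_mul_X_pow_le _ _).trans_lt (by exact_mod_cast j.2)
  have hp0 : p = 0 := by
    by_contra hne
    exact absurd (degree_le_of_dvd hdiv hne) (not_le.2 hdeg)
  refine hv0 (funext fun i => ?_)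
  have h4 : p.coeff i = v i := by
    rw [hp, finset_sum_coeff]
    rw [Finset.sum_eq_single i]
    · simp
    · intro j _ hj
      rw [coeff_C_mul, coeff_X_pow, if_neg, mul_zero]
      exact fun h => hj (Fin.ext h.symm)
    · intro h
      exact absurd (Finset.mem_univ i) h
  rw [← h4, hp0]
  simp

end Pool.HYP
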