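import Pool.Agent.H41.HYP.S1

/-!
# HYP, row ZBD: a block of zeros of size `(k + 1) × (n - k)`
-/

set_option autoImplicit false

namespace Pool.HYP

open Polynomial Matrix Pool.AVS

theorem zbd : ZBDStmt := by
  intro R _ n k G hk hG
  rw [Matrix.det_apply]
  refine Finset.sum_eq_zero fun σ _ => ?_
  have hex : ∃ j : Fin n, (j : ℕ) < n - k ∧ (σ j : ℕ) ≤ k := by
    by_contra hno
    push Not at hno
    have h1 : ((Finset.univ : Finset (Fin n)).filter fun j : Fin n => (j : ℕ) < n - k).card ≤
        ((Finset.univ : Finset (Fin n)).filter fun i : Fin n => k < (i : ℕ)).card := by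
      refine Finset.card_le_card_of_injOn σ (fun j hj => ?_) (σ.injective.injOn)
      simp only [Finset.coe_filter, Finset.mem_univ, true_and, Set.mem_setOf_eq] at hj ⊢
      exact hno j hj
    have h2 : ((Finset.univ : Finset (Fin n)).filter fun j : Fin n => (j : ℕ) < n - k).card = n - k := by
      rw [Fin.card_filter_val_lt]
      exact min_eq_right (Nat.sub_le _ _)
    have h3 : ((Finset.univ : Finset (Fin n)).filter fun i : Fin n => k < (i : ℕ)).card =
        n - (k + 1) := by
      have h4 : (Finset.univ : Finset (Fin n)).filter (fun i : Fin n => k < (i : ℕ)) =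
          Finset.Ioi ⟨k, hk⟩ := by
        ext i
        simp [Fin.lt_def]
      rw [h4, Fin.card_Ioi]
      simp
      omega
    omega
  obtain ⟨j, hj, hσ⟩ := hex
  rw [Finset.prod_eq_zero (f := fun i => G (σ i) i) (Finset.mem_univ j) (hG (σ j) j hσ hj),
    smul_zero]

end Pool.HYP
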